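import Pool.Agent.Y833.LG.Dens

/-!
# Large prime gaps recur, at every scale, after almost every prime

For all `lam, ε > 0` there are `c > 0` and `K` such that for all but a proportion `ε` of the indices `n`
the following holds for every `k ≥ K`: at least `c k` of the `k` gaps `p_(m+1) - p_m`, `n ≤ m < n + k`,
are at least `lam log p_m`.

Library: `Pool/Agent/Y833/LG` (helper833), on top of the sieve engine `Pool/Agent/H410R2`,
`Pool/Agent/H361R2/PP` of the starting files.
-/

set_option autoImplicit false

open Classical in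
theorem Pool.Agent.Results.MP_3bc45c_nt.LargeGapsNearAlmostAllPrimes.result
    (lam ε : ℝ) (hlam : 0 < lam) (hε : 0 < ε) :
    ∃ c : ℝ, 0 < c ∧ ∃ K N₀ : ℕ, ∀ N : ℕ, N₀ ≤ N →
      (1 - ε) * N ≤ (((Finset.range N).filter (fun n => ∀ k : ℕ, K ≤ k →
        c * k ≤ (((Finset.range k).filter (fun j =>
          lam * Real.log (Nat.nth Nat.Prime (n + j)) ≤
            (Nat.nth Nat.Prime (n + j + 1) : ℝ) - Nat.nth Nat.Prime (n + j))).card : ℝ))).card : ℝ) :=
  Pool.Agent.Y833.LG.final lam ε hlam hε
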