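import Pool.Agent.Y844.PT.Inst

/-!
# Primes at a distance of at most a power of the logarithm from many points of the translates of arbitrary sets
by the rearrangements of the digits of an arbitrary integer

Definitions used, from `Pool.Agent.TH872.An1`: `Spread b k η d`: the integers `d i` (`i < k`) are digits in
base `b`, and no digit is taken at more than `(1 - η) k` of the `k` places `i`; `V b d σ`: the integer with the
permuted digits, thus the integer with the digit `d (σ i)` at the place `i`, in base `b`.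
-/

set_option autoImplicit false

namespace Pool.Agent.Results.MP_3bc45c_nt.RearrangedTranslates

open Finset
open Pool.Agent.TH872.An (Spread V)

/-- The number of the primes in `(n, n + y]`. -/
def primesIn (n y : ℕ) : ℕ := ((Ioc n (n + y)).filter Nat.Prime).card

open Classical in
/-- With `X = b ^ k`: the translate `A + n` has good points: for all integers `y` with `k ^ K ≤ y ≤ B X` the average of
`primesIn (a + n) y` over the `a ∈ A` differs from `y / log X` by at most `ε y / log X`, and at least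
`(1 / 4 - ε) |A|` elements `a` of `A` have at least `(ε / 4) y / log X` primes in `(a + n, a + n + y]`. -/
noncomputable def Good (ε : ℝ) (K b B k : ℕ) (A : Finset ℕ) (n : ℕ) : Prop :=
  ∀ y : ℕ, (k : ℝ) ^ K ≤ y → y ≤ B * b ^ k →
    |(∑ a ∈ A, (primesIn (a + n) y : ℝ)) * Real.log ((b ^ k : ℕ) : ℝ) - A.card * y| ≤ ε * (A.card * y) ∧
    (1 / 4 - ε) * A.card ≤ ((A.filter fun a => ε / 4 * y ≤ (primesIn (a + n) y : ℝ) * Real.log ((b ^ k : ℕ) : ℝ)).card : ℝ)

lemma good_iff (ε : ℝ) (K b B k : ℕ) (A : Finset ℕ) (n : ℕ) :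
    Good ε K b B k A n ↔ Pool.Agent.Y844.PT.GoodT ε K b B k A n := by
  unfold Good Pool.Agent.Y844.PT.GoodT primesIn
  constructor
  · intro h y hy1 hy2
    obtain ⟨h1, h2⟩ := h y hy1 hy2
    refine ⟨h1, ?_⟩
    convert h2 using 4
  · intro h y hy1 hy2
    obtain ⟨h1, h2⟩ := h y hy1 hy2
    refine ⟨h1, ?_⟩
    convert h2 using 4

/-- Let `b ≥ 2`, `κ ≠ 0`, `B`, `C`, `U`, `η > 0` and `0 < ε ≤ 1 / 4` be fixed. There is a `K` such that for every sufficiently
large `k`, with `X = b ^ k`, every sequence `d` of `k` digits in base `b` none of which is taken at more than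
`(1 - η) k` places, every integer `|c| ≤ B X` and every set `A` of at least `X / k ^ C` integers in `[1, B X]` the
following holds for all but at most `k! / k ^ U` of the permutations `σ` of the `k` places for which `n = c + κ v` is
positive, where `v` is the integer with the permuted digits: for all `y` with `k ^ K ≤ y ≤ B X` the average over `a ∈ A` of
the number of the primes in `(a + n, a + n + y]` differs from `y / log X` by at most `ε y / log X`, and at least
`(1 / 4 - ε) |A|` elements `a` of `A` have at least `(ε / 4) y / log X` primes in `(a + n, a + n + y]`. -/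
theorem result (b B C U : ℕ) (hb : 2 ≤ b) (κ : ℤ) (hκ : κ ≠ 0) (η : ℝ) (hη : 0 < η) (ε : ℝ) (hε : 0 < ε) (hε1 : ε ≤ 1 / 4) :
    ∃ K k₀ : ℕ, ∀ k : ℕ, k₀ ≤ k → ∀ d : Fin k → ℕ, Spread b k η d → ∀ c : ℤ, |c| ≤ B * (b : ℤ) ^ k →
      ∀ A : Finset ℕ, A ⊆ Icc 1 (B * b ^ k) → ((b ^ k : ℕ) : ℝ) ≤ A.card * (k : ℝ) ^ C →
      (Nat.card {σ : Equiv.Perm (Fin k) // 0 < c + κ * V b d σ ∧ ¬ Good ε K b B k A (c + κ * V b d σ).toNat} : ℝ) ≤
        k.factorial / (k : ℝ) ^ U := by
  classical
  obtain ⟨K, k₀, h0⟩ := Pool.Agent.Y844.PT.pt_an b B C U hb κ hκ η hη ε hε hε1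
  refine ⟨K, k₀, fun k hk d hd c hc A hA hAk => ?_⟩
  rw [Nat.card_eq_fintype_card, Fintype.card_subtype]
  exact h0 k hk d hd c hc (fun y => 0 < y ∧ ¬ Good ε K b B k A y.toNat) ⟨A, hA, hAk, fun y hy => ⟨hy.1, fun hg =>
    hy.2 ((good_iff ε K b B k A y.toNat).2 hg)⟩⟩ (fun σ => 0 < c + κ * V b d σ ∧ ¬ Good ε K b B k A (c + κ * V b d σ).toNat)
    (fun σ hσ => hσ)

end Pool.Agent.Results.MP_3bc45c_nt.RearrangedTranslates
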