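import Pool.Agent.Y565.RG.SqrtF

set_option autoImplicit false

/-! # Prime gaps of record length around `α p + γ √p + β`, `p` prime, uniformly in `α, γ, β`

Let `r` be prime to `d` and `0 < ε ≤ 1/4`, and let
`f(Z) = log Z (log₂ Z)² log₄ Z / (log₃ Z)²`, the order of the largest known prime gaps.  There is
`κ > 0` such that for all large `Z` and ALL real `α, γ, β` with `Z ^ (-1/16) ≤ |γ| ≤ Z ^ (1/16)` for
which `α n + γ √n + β ≥ Z ^ ε` on `(Z, (1 + ε) Z]`, at least `Z ^ (1 - ε)` primes `p ≡ r (mod d)` in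
`(Z, (1 + ε) Z]` are such that no prime lies within `κ f(Z)` of `α p + γ √p + β`.  In particular this
holds for every fixed `α ≥ 0`, `γ ≠ 0` (not `α = 0 > γ`) and `β`, for all large `Z`: for example
around `p + √p`.

Proof: Vaughan's identity with a power saving for the sums of
`Λ(n) e(θ √n + α n)`, uniformly in `α` (starting library, `W24.CP.es_block`), detection of the class
and of the primes, and the covering sieve of `MP_3bc45c_nt.RecordGaps` in the form for real sequences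
(starting library, `TH915.PW.crit_scaled`). -/

namespace Pool.Agent.Results.MP_3bc45c_nt.SquareRootsOfPrimes

theorem result (d r : ℕ) (hd : 0 < d) (hr : r.Coprime d) (ε : ℝ) (hε : 0 < ε) (hε1 : ε ≤ 1 / 4) :
    ∃ κ : ℝ, 0 < κ ∧
      (∃ Z₀ : ℝ, ∀ Z : ℝ, Z₀ ≤ Z → ∀ α γ β : ℝ, Z ^ (-(1 / 16 : ℝ)) ≤ |γ| →
        |γ| ≤ Z ^ (1 / 16 : ℝ) →
        (∀ n : ℕ, Z < n → (n : ℝ) ≤ (1 + ε) * Z → Z ^ ε ≤ α * n + γ * √(n : ℝ) + β) →
        ∃ G : Finset ℕ, Z ^ (1 - ε) ≤ (G.card : ℝ) ∧ ∀ p ∈ G, p.Prime ∧ p ≡ r [MOD d] ∧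
          Z < p ∧ (p : ℝ) ≤ (1 + ε) * Z ∧
          ∀ q : ℕ, q.Prime →
            κ * (Real.log Z * (Real.log (Real.log Z)) ^ 2 *
              Real.log (Real.log (Real.log (Real.log Z))) /
                (Real.log (Real.log (Real.log Z))) ^ 2) <
              |(q : ℝ) - (α * p + γ * √(p : ℝ) + β)|) ∧
      (∀ α γ β : ℝ, 0 ≤ α → γ ≠ 0 → (0 < α ∨ 0 < γ) → ∃ Z₀ : ℝ, ∀ Z : ℝ, Z₀ ≤ Z →
        ∃ G : Finset ℕ, Z ^ (1 - ε) ≤ (G.card : ℝ) ∧ ∀ p ∈ G, p.Prime ∧ p ≡ r [MOD d] ∧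
          Z < p ∧ (p : ℝ) ≤ (1 + ε) * Z ∧
          ∀ q : ℕ, q.Prime →
            κ * (Real.log Z * (Real.log (Real.log Z)) ^ 2 *
              Real.log (Real.log (Real.log (Real.log Z))) /
                (Real.log (Real.log (Real.log Z))) ^ 2) <
              |(q : ℝ) - (α * p + γ * √(p : ℝ) + β)|) :=
  Pool.Agent.Y565.RG.sqrt_both d r hd hr ε hε hε1

end Pool.Agent.Results.MP_3bc45c_nt.SquareRootsOfPrimes
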