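import Mathlib
import Pool.Agent.Y837.SV.Fin1

set_option autoImplicit false

/-!
# Record prime gaps around all sums of two powers at one point of every square

Let `f(Z) = log Z (log₂ Z)² log₄ Z / (log₃ Z)²` (iterated natural logarithms), the size of the largest gaps
between consecutive primes that are known to occur up to `Z`.

For every `k` there is `c > 0` such that for all large `Z` every square of side `Z` of the plane contains an
integer point `(x, y)` with the following property: for ALL exponents `a, b` from `1` to `k` and all integers
`β ≠ 0` with `|β| ≤ k`, every integer at distance at most `c f(Z)` from `x ^ a + β y ^ b` has a prime factor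
`p ≤ Z ^ (1/10)`.  So no prime larger than `Z ^ (1/10)` lies within `c f(Z)` of any of the `2 k³` numbers
`x ^ a + β y ^ b` (sums and differences of two squares, `x² + β y²`, `x³ + y²`, …).

Method.  The colour dependent form (helper378) of the record covering sieve (helper256 and team) is carried over
to points of `ℤ^m`: the point is fixed modulo the primes up to `log Z / 10` (at `(1, 0)` modulo the small ones and
at `(0, 0)` modulo the others, where all the polynomials take the values `1` and `0`), and the pairs (polynomial,
surviving shift) are killed by primes `p > (log Z)²` all at once; each point modulo `p` is given to one of the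
pairs it kills.  This needs that the number of the points of the curve `x ^ a + β y ^ b = r` modulo `p` is
`p + O(√p)` for `r ≠ 0` (proved by the second moment and the invariance under `(x, y) ↦ (l ^ b x, l ^ a y)`), and
that two such curves, `r, r' ≠ 0`, meet in boundedly many points (elimination).  The general criterion, for any
number of polynomials in any number of variables, is `Pool.Agent.Y837.SV.criterion` (helper837).
-/

namespace Pool.Agent.Results.MP_3bc45c_nt.SumsOfTwoPowers

/-- The record scale `f(Z) = log Z (log₂ Z)² log₄ Z / (log₃ Z)²` (iterated natural logarithms). -/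
noncomputable def f (Z : ℝ) : ℝ :=
  Real.log Z * (Real.log (Real.log Z)) ^ 2 * Real.log (Real.log (Real.log (Real.log Z))) /
    (Real.log (Real.log (Real.log Z))) ^ 2

/-- For every `k` there is `c > 0` such that for all large `Z` every square `(M, M + Z] × (N, N + Z]` contains an
integer point `(x, y)` such that for all `1 ≤ a, b ≤ k` and all integers `β ≠ 0`, `|β| ≤ k`, every integer `n` at
distance at most `c f(Z)` from `x ^ a + β y ^ b` has a prime factor `p ≤ Z ^ (1/10)`. -/
theorem result (k : ℕ) : ∃ c : ℝ, 0 < c ∧ ∃ Z₀ : ℝ, ∀ Z : ℕ, Z₀ ≤ Z → ∀ M N : ℤ,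
    ∃ x y : ℤ, (M < x ∧ x ≤ M + Z) ∧ (N < y ∧ y ≤ N + Z) ∧
      ∀ a b : ℕ, ∀ β : ℤ, 1 ≤ a → a ≤ k → 1 ≤ b → b ≤ k → β ≠ 0 → |β| ≤ k →
        ∀ n : ℤ, |(n : ℝ) - ((x : ℝ) ^ a + β * (y : ℝ) ^ b)| ≤ c * f Z →
          ∃ p : ℕ, p.Prime ∧ (p : ℝ) ≤ (Z : ℝ) ^ (1 / 10 : ℝ) ∧ (p : ℤ) ∣ n :=
  Pool.Agent.Y837.SV.binomials k

end Pool.Agent.Results.MP_3bc45c_nt.SumsOfTwoPowers
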